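import Pool.Agent.H326.DL.E
import Pool.Agent.H326.CS.F
import Pool.Agent.H326.CS.G

/-!
The coverings of `y^s = (w - α_1) ... (w - α_k)` modulo an auxiliary prime.
-/

set_option autoImplicit false

namespace Pool.Agent.H326.SE

open Finset Polynomial Pool.Agent.H573.AHB Pool.Agent.H326.KQ Pool.Agent.H326.DL

/-- a product of at least three different integer shifts of a rational number is not `±1` -/
lemma no_w {k : ℕ} (hk : 3 ≤ k) (α : Fin k → ℤ) (hα : Function.Injective α) (w : ℚ) (ε : ℤ)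
    (hε : ε = 1 ∨ ε = -1) (h : ∏ j, (w - α j) = ε) : False := by
  classical
  have hint : IsIntegral ℤ w := by
    have hm : (∏ j, (X - C (α j))).Monic := monic_prod_of_monic _ _ (fun j _ => monic_X_sub_C _)
    have hd : (∏ j, (X - C (α j))).natDegree = k := by
      rw [natDegree_prod_of_monic _ _ (fun j _ => monic_X_sub_C _)]
      simp only [natDegree_X_sub_C, sum_const, card_univ, Fintype.card_fin, smul_eq_mul, mul_one]
    refine ⟨∏ j, (X - C (α j)) - C ε, ?_, ?_⟩
    · apply Monic.sub_of_left hm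
      apply degree_lt_degree
      rw [natDegree_C, hd]
      omega
    · rw [eval₂_sub, eval₂_C, eval₂_finset_prod]
      simp only [eval₂_sub, eval₂_X, eval₂_C]
      simp only [algebraMap_int_eq, eq_intCast]
      rw [h, sub_self]
  obtain ⟨m, hm⟩ := IsIntegrallyClosed.isIntegral_iff.mp hint
  rw [algebraMap_int_eq, eq_intCast] at hm
  have h1 : ∏ j, (m - α j) = ε := by
    have : ((∏ j, (m - α j) : ℤ) : ℚ) = (ε : ℚ) := by
      push_cast
      rw [hm]
      exact h
    exact_mod_cast this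
  have h2 : ∀ j, m - α j = 1 ∨ m - α j = -1 := by
    intro j
    apply Int.isUnit_iff.mp
    apply isUnit_of_dvd_unit (Finset.dvd_prod_of_mem (fun j => m - α j) (mem_univ j))
    rw [h1]
    exact Int.isUnit_iff.mpr hε
  have h3 : (univ.image α) ⊆ ({m - 1, m + 1} : Finset ℤ) := by
    intro x hx
    obtain ⟨j, -, rfl⟩ := mem_image.mp hx
    rw [mem_insert, mem_singleton]
    rcases h2 j with h | h
    · left; omega
    · right; omega
  have h4 := card_le_card h3
  rw [card_image_of_injective _ hα, card_univ, Fintype.card_fin] at h4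
  have h5 : ({m - 1, m + 1} : Finset ℤ).card ≤ 2 := card_le_two
  omega

variable {s q M H k : ℕ}

/-- **points of a twist modulo an auxiliary prime** -/
theorem mod_q (hq : q.Prime) (hs : s.Prime) (hs2 : 2 < s) (hsq : s ∣ q - 1)
    (hMq : 6 * M ^ 2 < q) (hbd : ¬ BD M q ((q - 1) / s)) (hH : H ^ 3 ≤ M ^ 2) (hk : 3 ≤ k)
    (α : Fin k → ℤ) (hα : Function.Injective α) (hαH : ∀ i j, |α i - α j| ≤ H)
    (a b : Fin k → ℕ) (ha : ∀ i, 1 ≤ a i) (hb : ∀ i, 1 ≤ b i) (haH : ∀ i, a i ≤ H)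
    (hbH : ∀ i, b i ≤ H) (w : ZMod q) (U : Fin k → ZMod q) (hU : ∀ i, U i ≠ 0)
    (hw : ∀ i, (b i : ZMod q) * (w - (α i : ZMod q)) = (a i : ZMod q) * (U i) ^ s) :
    ∃ e : Fin k → ℤ, (∀ i, e i = 1 ∨ e i = -1) ∧
      ∀ i j, (b i : ℤ) * b j * (α j - α i) - b j * e i * a i + b i * e j * a j = 0 := by
  classical
  have hF : Fact q.Prime := ⟨hq⟩
  obtain ⟨hn, hev, hn1, hlt⟩ := aux_n hq hs hs2 hsq
  have hWT : ¬ WT M q ((q - 1) / s) := fun h => hbd (Or.inr h)
  obtain ⟨n, hnn⟩ : ∃ n, n = (q - 1) / s := ⟨_, rfl⟩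
  rw [← hnn] at hn hev hn1 hWT
  have hs0 : s ≠ 0 := by omega
  have pn : ∀ w : ZMod q, w ≠ 0 → (w ^ s) ^ n = 1 := fun w hw => pw hq hn w hw
  have i0 : Fin k := ⟨0, by omega⟩
  have hH1 : 1 ≤ H := (ha i0).trans (haH i0)
  have hHz : (1 : ℤ) ≤ H := by exact_mod_cast hH1
  have hHM : (H : ℤ) ^ 3 ≤ (M : ℤ) ^ 2 := by exact_mod_cast hH
  have az : ∀ i, (1 : ℤ) ≤ a i ∧ (a i : ℤ) ≤ H := fun i => ⟨by exact_mod_cast ha i, by exact_mod_cast haH i⟩
  have bz : ∀ i, (1 : ℤ) ≤ b i ∧ (b i : ℤ) ≤ H := fun i => ⟨by exact_mod_cast hb i, by exact_mod_cast hbH i⟩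
  have hH23 : (H : ℤ) * H ≤ (H : ℤ) ^ 3 := by nlinarith [mul_nonneg (mul_nonneg (by linarith : (0 : ℤ) ≤ H) (by linarith : (0 : ℤ) ≤ H)) (by linarith : (0 : ℤ) ≤ (H : ℤ) - 1)]
  have ab2 : ∀ x y : ℤ, 1 ≤ x → x ≤ H → 1 ≤ y → y ≤ H → |x * y| ≤ H * H := by
    intro x y h1 h2 h3 h4
    rw [abs_of_nonneg (by positivity)]
    exact mul_le_mul h2 h4 (by linarith) (by linarith)
  have ab3 : ∀ i j i' j', |(b i : ℤ) * b j * (α i' - α j')| ≤ (H : ℤ) ^ 3 := by
    intro i j i' j'
    rw [abs_mul]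
    calc |(b i : ℤ) * b j| * |α i' - α j'| ≤ (H * H) * H :=
          mul_le_mul (ab2 _ _ (bz i).1 (bz i).2 (bz j).1 (bz j).2) (hαH i' j') (abs_nonneg _)
            (by positivity)
      _ = (H : ℤ) ^ 3 := by ring
  have step : ∀ i, ∃ e : ℤ, (e = 1 ∨ e = -1) ∧ (U i) ^ s = (e : ZMod q) := by
    intro i
    have hcard : 1 < ((univ : Finset (Fin k)) \ {i}).card := by
      have h1 := Finset.le_card_sdiff ({i} : Finset (Fin k)) univ
      rw [Finset.card_univ, Fintype.card_fin, Finset.card_singleton] at h1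
      omega
    obtain ⟨j, hj, l, hl, hjl⟩ := Finset.one_lt_card.mp hcard
    simp only [mem_sdiff, mem_univ, true_and, mem_singleton] at hj hl
    have htn := pn _ (hU i)
    have key : ∀ m : Fin k, (((b i : ℤ) * b m * (α i - α m) : ℤ) + ((b m * a i : ℤ) : ZMod q) *
        (U i) ^ s) ^ n = (((b i : ℤ) * a m : ℤ) : ZMod q) ^ n := by
      intro m
      have h2 : ((((b i : ℤ) * b m * (α i - α m) : ℤ) : ZMod q) + ((b m * a i : ℤ) : ZMod q) *
        (U i) ^ s) = (((b i : ℤ) * a m : ℤ) : ZMod q) * (U m) ^ s := by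
        push_cast
        linear_combination (b i : ZMod q) * hw m - (b m : ZMod q) * hw i
      rw [h2, mul_pow, pn _ (hU m), mul_one]
    have ht2 : ((U i) ^ s) ^ 2 = 1 := by
      by_contra hne
      apply hWT
      refine ⟨![(b i : ℤ) * b j * (α i - α j), b j * a i, (b i : ℤ) * a j,
        (b i : ℤ) * b l * (α i - α l), b l * a i, (b i : ℤ) * a l], ?_, ⟨?_, ?_⟩, (U i) ^ s, hne, htn,
        key j, key l⟩
      · rw [Fintype.mem_piFinset]
        intro m
        rw [mem_Icc]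
        apply abs_le.mp
        have k3 : (H : ℤ) ^ 3 ≤ 2 * (M : ℤ) ^ 2 := by
          have : (0 : ℤ) ≤ (M : ℤ) ^ 2 := by positivity
          linarith
        fin_cases m
        · exact (ab3 _ _ _ _).trans k3
        · exact ((ab2 _ _ (bz j).1 (bz j).2 (az i).1 (az i).2).trans hH23).trans k3
        · exact ((ab2 _ _ (bz i).1 (bz i).2 (az j).1 (az j).2).trans hH23).trans k3
        · exact (ab3 _ _ _ _).trans k3
        · exact ((ab2 _ _ (bz l).1 (bz l).2 (az i).1 (az i).2).trans hH23).trans k3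
        · exact ((ab2 _ _ (bz i).1 (bz i).2 (az l).1 (az l).2).trans hH23).trans k3
      · have a0 : ∀ i, (a i : ℤ) ≠ 0 := fun i => by have := (az i).1; omega
        have b0 : ∀ i, (b i : ℤ) ≠ 0 := fun i => by have := (bz i).1; omega
        have d0 : ∀ i' j', j' ≠ i' → α i' - α j' ≠ 0 := fun i' j' h h' =>
          h (hα (by omega))
        intro m
        fin_cases m
        · exact mul_ne_zero (mul_ne_zero (b0 i) (b0 j)) (d0 _ _ hj)
        · exact mul_ne_zero (b0 j) (a0 i)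
        · exact mul_ne_zero (b0 i) (a0 j)
        · exact mul_ne_zero (mul_ne_zero (b0 i) (b0 l)) (d0 _ _ hl)
        · exact mul_ne_zero (b0 l) (a0 i)
        · exact mul_ne_zero (b0 i) (a0 l)
      · intro h0
        have h1 : (b i : ℤ) * b j * (α i - α j) * (b l * a i) = b j * a i * (b i * b l * (α i - α l)) := h0
        have a0 : (a i : ℤ) ≠ 0 := by have := (az i).1; omega
        have b0 : ∀ i, (b i : ℤ) ≠ 0 := fun i => by have := (bz i).1; omega
        have h2 : ((b i : ℤ) * b j * b l * a i) * (α l - α j) = 0 := by linear_combination h1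
        have h3 := (mul_eq_zero.mp h2).resolve_left
          (mul_ne_zero (mul_ne_zero (mul_ne_zero (b0 i) (b0 j)) (b0 l)) a0)
        exact hjl (hα (by omega))
    have ht3 : ((U i) ^ s - 1) * ((U i) ^ s + 1) = 0 := by linear_combination ht2
    rcases mul_eq_zero.mp ht3 with h1 | h1
    · refine ⟨1, Or.inl rfl, ?_⟩
      rw [sub_eq_zero.mp h1]
      push_cast
      rfl
    · refine ⟨-1, Or.inr rfl, ?_⟩
      rw [eq_neg_of_add_eq_zero_left h1]
      push_cast
      rfl
  choose e he1 he2 using step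
  refine ⟨e, he1, fun i j => ?_⟩
  by_contra hne
  refine int_ne (H := 6 * M ^ 2) hMq hne ?_ ?_
  · have eb : ∀ i, |e i| = 1 := fun i => by rcases he1 i with h | h <;> rw [h] <;> rfl
    have t1 := ab3 i j j i
    have t2 : |(b j : ℤ) * e i * a i| ≤ (H : ℤ) ^ 3 := by
      have : |(b j : ℤ) * e i * a i| = |(b j : ℤ) * a i| := by
        rw [abs_mul, abs_mul, abs_mul, eb, mul_one]
      rw [this]
      exact (ab2 _ _ (bz j).1 (bz j).2 (az i).1 (az i).2).trans hH23
    have t3 : |(b i : ℤ) * e j * a j| ≤ (H : ℤ) ^ 3 := by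
      have : |(b i : ℤ) * e j * a j| = |(b i : ℤ) * a j| := by
        rw [abs_mul, abs_mul, abs_mul, eb, mul_one]
      rw [this]
      exact (ab2 _ _ (bz i).1 (bz i).2 (az j).1 (az j).2).trans hH23
    have t4 := abs_add_le ((b i : ℤ) * b j * (α j - α i) - b j * e i * a i) (b i * e j * a j)
    have t5 := abs_sub ((b i : ℤ) * b j * (α j - α i)) (b j * e i * a i)
    push_cast
    have : (0 : ℤ) ≤ (M : ℤ) ^ 2 := by positivity
    linarith
  · push_cast
    have h1 := hw i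
    have h2 := hw j
    rw [he2] at h1 h2
    linear_combination (b j : ZMod q) * h1 - (b i : ZMod q) * h2

/-- the system of the signs has no solution -/
theorem no_signs (hk : 3 ≤ k) (α : Fin k → ℤ) (hα : Function.Injective α)
    (a b : Fin k → ℕ) (ha : ∀ i, 1 ≤ a i) (hb : ∀ i, 1 ≤ b i) (hab : ∏ i, a i = ∏ i, b i)
    (e : Fin k → ℤ) (he : ∀ i, e i = 1 ∨ e i = -1)
    (h : ∀ i j, (b i : ℤ) * b j * (α j - α i) - b j * e i * a i + b i * e j * a j = 0) :
    False := by
  classical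
  have i0 : Fin k := ⟨0, by omega⟩
  have b0 : ∀ i, (b i : ℚ) ≠ 0 := fun i => by
    have := hb i
    exact_mod_cast (by omega : b i ≠ 0)
  obtain ⟨w, hw⟩ : ∃ w : ℚ, w = α i0 + e i0 * a i0 / b i0 := ⟨_, rfl⟩
  have h1 : ∀ j, (b j : ℚ) * (w - α j) = e j * a j := by
    intro j
    have h2 : (b i0 : ℚ) * b j * (α j - α i0) - b j * e i0 * a i0 + b i0 * e j * a j = 0 := by
      exact_mod_cast h i0 j
    rw [hw]
    have h3 := b0 i0
    field_simp
    linear_combination -h2
  have h2 : ∏ j, (w - α j) = ((∏ j, e j : ℤ) : ℚ) := by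
    have h3 : ∏ j, ((b j : ℚ) * (w - α j)) = ∏ j, ((e j : ℚ) * a j) :=
      prod_congr rfl (fun j _ => h1 j)
    rw [prod_mul_distrib, prod_mul_distrib] at h3
    have h4 : ∏ j, (a j : ℚ) = ∏ j, (b j : ℚ) := by exact_mod_cast hab
    rw [h4, mul_comm (∏ j, (e j : ℚ))] at h3
    push_cast
    exact mul_left_cancel₀ (prod_ne_zero_iff.mpr (fun j _ => b0 j)) h3
  refine no_w hk α hα w _ ?_ h2
  apply Int.isUnit_iff.mp
  have : ∀ i ∈ (univ : Finset (Fin k)), IsUnit (e i) := fun i _ => Int.isUnit_iff.mpr (he i)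
  exact Finset.prod_induction e IsUnit (fun x y => IsUnit.mul) isUnit_one this

end Pool.Agent.H326.SE
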