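import Pool.Agent.H326.CS.F
import Pool.Agent.H326.CS.G

/-!
The valuations of the coefficients of a twist with local points.
-/

set_option autoImplicit false

namespace Pool.Agent.H326.SE

open Finset Pool.Agent.H326.CS

/-- the product of the differences of different roots -/
def disc {k : ℕ} (α : Fin k → ℤ) : ℕ := ∏ i, ∏ j ∈ univ.erase i, (α i - α j).natAbs

lemma disc_ne {k : ℕ} (α : Fin k → ℤ) (hα : Function.Injective α) : disc α ≠ 0 := by
  unfold disc
  refine prod_ne_zero_iff.mpr (fun i _ => prod_ne_zero_iff.mpr (fun j hj => ?_))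
  rw [Int.natAbs_ne_zero, sub_ne_zero]
  exact fun h => (mem_erase.mp hj).1 (hα h).symm

lemma row_dvd {k : ℕ} (α : Fin k → ℤ) (i : Fin k) :
    (∏ j ∈ univ.erase i, (α i - α j).natAbs) ∣ disc α :=
  Finset.dvd_prod_of_mem (fun i => ∏ j ∈ univ.erase i, (α i - α j).natAbs) (mem_univ i)

lemma diff_dvd {k : ℕ} (α : Fin k → ℤ) {i j : Fin k} (hij : j ≠ i) :
    (α i - α j).natAbs ∣ disc α :=
  (Finset.dvd_prod_of_mem (fun j => (α i - α j).natAbs) (mem_erase.mpr ⟨hij, mem_univ j⟩)).trans
    (row_dvd α i)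

section
variable {p : ℕ} [hp : Fact p.Prime]

/-- a point of the twist over `ℚ_p` -/
def Loc (p : ℕ) [Fact p.Prime] {k : ℕ} (s : ℕ) (α : Fin k → ℤ) (a : Fin k → ℚ) (l m : ℚ_[p]) :
    Prop :=
  (l ≠ 0 ∨ m ≠ 0) ∧ ∃ (u0 : ℚ_[p]) (u : Fin k → ℚ_[p]), m = u0 ^ s ∧
    ∀ i, l - (α i : ℚ_[p]) * m = (a i : ℚ_[p]) * (u i) ^ s

lemma int_norm_le (x : ℤ) : ‖(x : ℚ_[p])‖ ≤ 1 := Padic.norm_int_le_one x

lemma norm_natAbs (x : ℤ) : ‖((x.natAbs : ℕ) : ℚ_[p])‖ = ‖(x : ℚ_[p])‖ := by
  rcases Int.natAbs_eq x with h | h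
  · conv_rhs => rw [h]
    rw [Int.cast_natCast]
  · conv_rhs => rw [h]
    rw [Int.cast_neg, norm_neg, Int.cast_natCast]

lemma fac_le {E F : ℕ} (hE : E ≠ 0) (hF : F ∣ E) : F.factorization p ≤ E.factorization p :=
  (Nat.factorization_le_iff_dvd (fun h => hE (by rw [h] at hF; exact zero_dvd_iff.mp hF)) hE).mpr hF p

/-- **the valuations of the coefficients** -/
theorem val_all {k s : ℕ} (hsk : Nat.Coprime s k) (hs : s ≠ 0) (α : Fin k → ℤ)
    (hα : Function.Injective α) (a : Fin k → ℕ) (ha : ∀ i, a i ≠ 0) (c1 c2 : ℕ) (hc1 : c1 ≠ 0)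
    (hc2 : c2 ≠ 0) (hprod : (∏ i, a i) * c2 ^ s = c1 ^ s) (hE : disc α < 2 ^ s) (l m : ℚ_[p])
    (hloc : Loc p s α (fun i => (a i : ℚ)) l m) (i : Fin k) :
    ∃ k' i' j' : ℕ, (a i).factorization p + j' = s * k' + i' ∧
      i' ≤ (disc α).factorization p ∧ j' ≤ (disc α).factorization p := by
  classical
  obtain ⟨hlm, u0, u, hm, hu⟩ := hloc
  simp only [Rat.cast_natCast] at hu
  have hE0 := disc_ne α hα
  have hEs : (disc α).factorization p < s := by
    by_contra hcon
    push Not at hcon
    have k1 : p ^ ((disc α).factorization p) ∣ disc α := Nat.ordProj_dvd (disc α) p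
    have k2 := Nat.le_of_dvd (Nat.pos_of_ne_zero hE0) k1
    have k3 : 2 ^ s ≤ p ^ ((disc α).factorization p) :=
      (Nat.pow_le_pow_right (by norm_num) hcon).trans (Nat.pow_le_pow_left hp.out.two_le _)
    omega
  -- the sum of the valuations
  obtain ⟨C, hC⟩ : ∃ C : ℤ, C = c1.factorization p - c2.factorization p := ⟨_, rfl⟩
  have hsum : ∑ i, ((a i).factorization p : ℤ) = s * C := by
    have hv : ((∏ i, a i) * c2 ^ s).factorization p = (c1 ^ s).factorization p := by rw [hprod]
    rw [Nat.factorization_mul (prod_ne_zero_iff.mpr (fun i _ => ha i)) (pow_ne_zero s hc2),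
      Nat.factorization_pow, Nat.factorization_pow,
      Nat.factorization_prod (fun i _ => ha i)] at hv
    simp only [Finsupp.add_apply, Finsupp.smul_apply, smul_eq_mul, Finsupp.finset_sum_apply] at hv
    have hv' : (∑ i, ((a i).factorization p : ℤ)) + s * c2.factorization p =
        s * c1.factorization p := by exact_mod_cast hv
    rw [hC]
    linear_combination hv'
  rcases lt_or_ge ‖m‖ ‖l‖ with hcase | hcase
  · -- the point at infinity
    have hl0 : l ≠ 0 := by
      rintro rfl
      rw [norm_zero] at hcase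
      exact absurd hcase (not_lt.mpr (norm_nonneg _))
    have hL : ∀ i, ‖l - (α i : ℚ_[p]) * m‖ = ‖l‖ := by
      intro i
      have h1 : ‖-((α i : ℚ_[p]) * m)‖ < ‖l‖ := by
        rw [norm_neg, norm_mul]
        calc ‖(α i : ℚ_[p])‖ * ‖m‖ ≤ 1 * ‖m‖ :=
              mul_le_mul_of_nonneg_right (int_norm_le _) (norm_nonneg _)
          _ < ‖l‖ := by rw [one_mul]; exact hcase
      rw [sub_eq_add_neg, IsUltrametricDist.norm_add_eq_max_of_norm_ne_norm (ne_of_gt h1)]
      exact max_eq_left h1.le
    have hLv : ∀ i, l.valuation = ((a i).factorization p : ℤ) + s * (u i).valuation := by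
      intro i
      have h0 : l - (α i : ℚ_[p]) * m ≠ 0 := by
        intro h0
        have := hL i
        rw [h0, norm_zero] at this
        exact hl0 (norm_eq_zero.mp this.symm)
      have h1 : (l - (α i : ℚ_[p]) * m).valuation = l.valuation :=
        le_antisymm (val_le_of_norm hl0 h0 (hL i).ge) (val_le_of_norm h0 hl0 (hL i).le)
      have ha0 : (a i : ℚ_[p]) ≠ 0 := by exact_mod_cast ha i
      have hus : (u i) ^ s ≠ 0 := by
        intro h2
        rw [hu i, h2, mul_zero] at h0
        exact h0 rfl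
      rw [← h1, hu i, Padic.valuation_mul ha0 hus, Padic.valuation_pow, val_nat]
    have hk : (k : ℤ) * l.valuation = s * (C + ∑ i, (u i).valuation) := by
      have h1 : ∑ _i : Fin k, l.valuation = ∑ i, (((a i).factorization p : ℤ) +
          s * (u i).valuation) := sum_congr rfl (fun i _ => hLv i)
      rw [sum_const, card_univ, Fintype.card_fin, sum_add_distrib, hsum, ← mul_sum] at h1
      rw [nsmul_eq_mul] at h1
      linear_combination h1
    have hdvd : (s : ℤ) ∣ l.valuation := by
      have h1 : (s : ℤ) ∣ (k : ℤ) * l.valuation := ⟨_, hk⟩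
      exact (Nat.isCoprime_iff_coprime.mpr hsk).dvd_of_dvd_mul_left h1
    obtain ⟨T, hT⟩ := hdvd
    have h1 : ((a i).factorization p : ℤ) = s * (T - (u i).valuation) := by
      linear_combination hT - hLv i
    have hspos : (0 : ℤ) < s := by exact_mod_cast Nat.pos_of_ne_zero hs
    have h2 : 0 ≤ T - (u i).valuation := by
      by_contra hcon
      push Not at hcon
      have h3 : (s : ℤ) * (T - (u i).valuation) < 0 := mul_neg_of_pos_of_neg hspos hcon
      have h4 : (0 : ℤ) ≤ ((a i).factorization p : ℤ) := Int.natCast_nonneg _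
      omega
    refine ⟨(T - (u i).valuation).toNat, 0, 0, ?_, Nat.zero_le _, Nat.zero_le _⟩
    have k3 : (((T - (u i).valuation).toNat : ℕ) : ℤ) = T - (u i).valuation :=
      Int.toNat_of_nonneg h2
    have : (((a i).factorization p + 0 : ℕ) : ℤ) =
        ((s * (T - (u i).valuation).toNat + 0 : ℕ) : ℤ) := by
      push_cast
      rw [k3]
      linear_combination h1
    exact_mod_cast this
  · have hm0 : m ≠ 0 := by
      rintro rfl
      rw [norm_zero] at hcase
      have : l = 0 := norm_le_zero_iff.mp hcase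
      rcases hlm with h | h
      · exact h this
      · exact h rfl
    have hu0 : u0 ≠ 0 := by
      intro h
      rw [h, zero_pow hs] at hm
      exact hm0 hm
    have hD : ∀ i, l / m - (α i : ℚ_[p]) = (a i : ℚ_[p]) * (u i / u0) ^ s := by
      intro i
      rw [div_pow, ← hm, mul_div_assoc', ← hu i]
      field_simp
    have hw1 : ‖l / m‖ ≤ 1 := by
      rw [norm_div]
      exact div_le_one_of_le₀ hcase (norm_nonneg _)
    obtain ⟨i0, -, hi0⟩ := Finset.exists_min_image (univ : Finset (Fin k))
      (fun i => ‖l / m - (α i : ℚ_[p])‖) ⟨i, mem_univ i⟩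
    have hval : ∀ j, j ≠ i0 → ∃ (t : ℤ) (i' : ℕ), ((a j).factorization p : ℤ) = s * t + i' ∧
        i' ≤ ((α i0 - α j).natAbs).factorization p := by
      intro j hj
      apply val_core s ((α i0 - α j).natAbs) (a j) ?_ (ha j) (l / m - (α j : ℚ_[p])) (u j / u0)
        ?_ ?_ (hD j)
      · rw [Int.natAbs_ne_zero, sub_ne_zero]
        exact fun h => hj (hα h).symm
      · exact (norm_sub_max _ _).trans (max_le hw1 (int_norm_le _))
      · rw [norm_natAbs]
        have h1 : (((α i0 - α j : ℤ)) : ℚ_[p]) =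
            (l / m - (α j : ℚ_[p])) - (l / m - (α i0 : ℚ_[p])) := by
          push_cast
          ring
        rw [h1]
        exact (norm_sub_max _ _).trans (max_le le_rfl (hi0 j (mem_univ j)))
    by_cases hii : i = i0
    · have hval' : ∀ j, ∃ (t : ℤ) (i' : ℕ), j ≠ i0 → (((a j).factorization p : ℤ) = s * t + i' ∧
          i' ≤ ((α i0 - α j).natAbs).factorization p) := by
        intro j
        by_cases hj : j = i0
        · exact ⟨0, 0, fun h => absurd hj h⟩
        · obtain ⟨t, i', h⟩ := hval j hj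
          exact ⟨t, i', fun _ => h⟩
      choose t ii ht using hval'
      have h1 : ((a i).factorization p : ℤ) + ∑ j ∈ univ.erase i0, ((a j).factorization p : ℤ) =
          s * C := by
        rw [← hsum, hii]
        exact Finset.add_sum_erase univ (fun j => ((a j).factorization p : ℤ)) (mem_univ i0)
      have h2 : ∑ j ∈ univ.erase i0, ((a j).factorization p : ℤ) =
          s * (∑ j ∈ univ.erase i0, t j) + ((∑ j ∈ univ.erase i0, ii j : ℕ) : ℤ) := by
        rw [mul_sum]
        push_cast
        rw [← sum_add_distrib]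
        exact sum_congr rfl (fun j hj => (ht j (mem_erase.mp hj).1).1)
      obtain ⟨J, hJ⟩ : ∃ J, J = ∑ j ∈ univ.erase i0, ii j := ⟨_, rfl⟩
      rw [← hJ] at h2
      have hJE : J ≤ (disc α).factorization p := by
        refine le_trans ?_ (fac_le hE0 (row_dvd α i0))
        rw [Nat.factorization_prod (fun j hj => by
          rw [Int.natAbs_ne_zero, sub_ne_zero]
          exact fun h => (mem_erase.mp hj).1 (hα h).symm), Finsupp.finset_sum_apply, hJ]
        exact sum_le_sum (fun j hj => (ht j (mem_erase.mp hj).1).2)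
      obtain ⟨K, hK⟩ : ∃ K : ℤ, K = C - ∑ j ∈ univ.erase i0, t j := ⟨_, rfl⟩
      have h3 : ((a i).factorization p : ℤ) + J = s * K := by
        rw [hK]
        linear_combination h1 - h2
      have hspos : (0 : ℤ) < s := by exact_mod_cast Nat.pos_of_ne_zero hs
      have h4 : 0 ≤ K := by
        by_contra hcon
        push Not at hcon
        have h5 : (s : ℤ) * K < 0 := mul_neg_of_pos_of_neg hspos hcon
        omega
      refine ⟨K.toNat, 0, J, ?_, Nat.zero_le _, hJE⟩
      have k3 : ((K.toNat : ℕ) : ℤ) = K := Int.toNat_of_nonneg h4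
      have : (((a i).factorization p + J : ℕ) : ℤ) = ((s * K.toNat + 0 : ℕ) : ℤ) := by
        push_cast
        rw [k3]
        linear_combination h3
      exact_mod_cast this
    · obtain ⟨t, i', h1, h2⟩ := hval i hii
      have h3 : i' ≤ (disc α).factorization p :=
        h2.trans (fac_le hE0 (diff_dvd α hii))
      have hspos : (0 : ℤ) < s := by exact_mod_cast Nat.pos_of_ne_zero hs
      have h4 : 0 ≤ t := by
        by_contra hcon
        push Not at hcon
        have h5 : (s : ℤ) * t ≤ -s := by nlinarith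
        omega
      refine ⟨t.toNat, i', 0, ?_, h3, Nat.zero_le _⟩
      have k3 : ((t.toNat : ℕ) : ℤ) = t := Int.toNat_of_nonneg h4
      have : (((a i).factorization p + 0 : ℕ) : ℤ) = ((s * t.toNat + i' : ℕ) : ℤ) := by
        push_cast
        rw [k3]
        linear_combination h1
      exact_mod_cast this

end

end Pool.Agent.H326.SE
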