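import Pool.Agent.H326.SE.A
import Pool.Agent.H326.SE.B

/-!
The reduction of a point of a twist modulo an auxiliary prime.
-/

set_option autoImplicit false

namespace Pool.Agent.H326.SE

open Finset Pool.Agent.H573.AHB Pool.Agent.H326.KQ Pool.Agent.H326.DL

variable {s q M H k : ℕ}

lemma toZMod_small [hF : Fact q.Prime] (x : ℤ_[q]) (hx : ‖x‖ < 1) : PadicInt.toZMod x = 0 := by
  obtain ⟨y, hy⟩ := (PadicInt.norm_lt_one_iff_dvd x).mp hx
  rw [hy, map_mul, map_natCast, ZMod.natCast_self, zero_mul]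

lemma toZMod_unit [hF : Fact q.Prime] (x : ℤ_[q]) (hx : ‖x‖ = 1) : PadicInt.toZMod x ≠ 0 :=
  (IsUnit.map PadicInt.toZMod (PadicInt.isUnit_iff.mpr hx)).ne_zero

lemma unit_norm [hF : Fact q.Prime] (x : ℕ) (h1 : 1 ≤ x) (h2 : x < q) : ‖(x : ℚ_[q])‖ = 1 := by
  rw [Padic.norm_natCast_eq_one_iff]
  refine (Nat.Prime.coprime_iff_not_dvd hF.out).mpr (fun hd => ?_)
  have := Nat.le_of_dvd h1 hd
  omega

/-- **the reduction of a point of a twist** -/
theorem at_q [hF : Fact q.Prime] (hs : s.Prime) (hs2 : 2 < s) (hsq : s ∣ q - 1)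
    (hMq : 6 * M ^ 2 < q) (hbd : ¬ BD M q ((q - 1) / s)) (hH : H ^ 3 ≤ M ^ 2) (hk : 3 ≤ k)
    (α : Fin k → ℤ) (hα : Function.Injective α) (hαH : ∀ i j, |α i - α j| ≤ H)
    (a b : Fin k → ℕ) (ha : ∀ i, 1 ≤ a i) (hb : ∀ i, 1 ≤ b i) (haH : ∀ i, a i ≤ H)
    (hbH : ∀ i, b i ≤ H) (hab : ∏ i, a i = ∏ i, b i) (l m u0 : ℚ_[q]) (V : Fin k → ℚ_[q])
    (hlm : l ≠ 0 ∨ m ≠ 0) (hm : m = u0 ^ s)
    (hV : ∀ i, (b i : ℚ_[q]) * (l - (α i : ℚ_[q]) * m) = (a i : ℚ_[q]) * (V i) ^ s) :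
    (‖m‖ < ‖l‖ ∧ ∀ i j, b i * a j = b j * a i) ∨
      ∃ i, ‖l - (α i : ℚ_[q]) * m‖ < ‖m‖ ∧ ∀ j, j ≠ i → b j * (α i - α j).natAbs = a j := by
  classical
  have hq : q.Prime := hF.out
  obtain ⟨hn, hev, hn1, hlt⟩ := aux_n hq hs hs2 hsq
  have hWN : ¬ WN M q ((q - 1) / s) := fun h => hbd (Or.inl h)
  have numq := @num_int s q M hWN hev
  obtain ⟨n, hnn⟩ : ∃ n, n = (q - 1) / s := ⟨_, rfl⟩
  have pn : ∀ w : ZMod q, w ≠ 0 → (w ^ s) ^ n = 1 := by
    rw [← hnn] at hn
    exact fun w hw => pw hq hn w hw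
  rw [← hnn] at numq
  have hs0 : s ≠ 0 := by omega
  have i1 : Fin k := ⟨0, by omega⟩
  have hH1 : 1 ≤ H := (ha i1).trans (haH i1)
  have hHz : (1 : ℤ) ≤ H := by exact_mod_cast hH1
  have hHM : (H : ℤ) ^ 3 ≤ (M : ℤ) ^ 2 := by exact_mod_cast hH
  have hH23 : (H : ℤ) * H ≤ (H : ℤ) ^ 3 := by
    nlinarith [mul_nonneg (mul_nonneg (by linarith : (0 : ℤ) ≤ H) (by linarith : (0 : ℤ) ≤ H))
      (by linarith : (0 : ℤ) ≤ (H : ℤ) - 1)]
  have hH12 : (H : ℤ) ≤ H * H := by nlinarith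
  have hM0 : (0 : ℤ) ≤ (M : ℤ) ^ 2 := by positivity
  have az : ∀ i, (1 : ℤ) ≤ a i ∧ (a i : ℤ) ≤ H := fun i =>
    ⟨by exact_mod_cast ha i, by exact_mod_cast haH i⟩
  have bz : ∀ i, (1 : ℤ) ≤ b i ∧ (b i : ℤ) ≤ H := fun i =>
    ⟨by exact_mod_cast hb i, by exact_mod_cast hbH i⟩
  have hHq : H < q := by
    have h1 : (H : ℤ) < q := by
      have : (6 : ℤ) * (M : ℤ) ^ 2 < q := by exact_mod_cast hMq
      linarith
    exact_mod_cast h1
  have ab2 : ∀ x y : ℤ, 1 ≤ x → x ≤ H → 1 ≤ y → y ≤ H →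
      x * y ≠ 0 ∧ |x * y| ≤ 2 * (M : ℤ) ^ 2 := by
    intro x y h1 h2 h3 h4
    refine ⟨by positivity, ?_⟩
    rw [abs_of_nonneg (by positivity)]
    have : x * y ≤ H * H := mul_le_mul h2 h4 (by linarith) (by linarith)
    linarith
  have ua : ∀ i, ‖(a i : ℚ_[q])‖ = 1 := fun i => unit_norm _ (ha i) (lt_of_le_of_lt (haH i) hHq)
  have ub : ∀ i, ‖(b i : ℚ_[q])‖ = 1 := fun i => unit_norm _ (hb i) (lt_of_le_of_lt (hbH i) hHq)
  have hVn : ∀ i, ‖V i‖ ^ s = ‖l - (α i : ℚ_[q]) * m‖ := by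
    intro i
    have h1 := congrArg norm (hV i)
    rw [norm_mul, norm_mul, ua, ub, one_mul, one_mul, norm_pow] at h1
    exact h1.symm
  rcases lt_or_ge ‖m‖ ‖l‖ with hcase | hcase
  · left
    refine ⟨hcase, fun i j => ?_⟩
    have hl0 : l ≠ 0 := by
      rintro rfl
      rw [norm_zero] at hcase
      exact absurd hcase (not_lt.mpr (norm_nonneg _))
    have hln : 0 < ‖l‖ := norm_pos_iff.mpr hl0
    have hL : ∀ i, ‖l - (α i : ℚ_[q]) * m‖ = ‖l‖ := by
      intro i
      have h1 : ‖-((α i : ℚ_[q]) * m)‖ < ‖l‖ := by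
        rw [norm_neg, norm_mul]
        calc ‖(α i : ℚ_[q])‖ * ‖m‖ ≤ 1 * ‖m‖ :=
              mul_le_mul_of_nonneg_right (int_norm_le _) (norm_nonneg _)
          _ < ‖l‖ := by rw [one_mul]; exact hcase
      rw [sub_eq_add_neg, IsUltrametricDist.norm_add_eq_max_of_norm_ne_norm (ne_of_gt h1)]
      exact max_eq_left h1.le
    have hVij : ‖V j‖ = ‖V i‖ := by
      have h1 : ‖V j‖ ^ s = ‖V i‖ ^ s := by rw [hVn, hVn, hL, hL]
      exact (pow_left_inj₀ (norm_nonneg _) (norm_nonneg _) hs0).mp h1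
    have hVi0 : V i ≠ 0 := by
      intro h0
      have h1 := hVn i
      rw [h0, norm_zero, zero_pow hs0, hL] at h1
      exact hln.ne h1
    have hρ : ‖V j / V i‖ = 1 := by
      rw [norm_div, hVij, div_self (norm_ne_zero_iff.mpr hVi0)]
    have hμ : ‖m / l‖ < 1 := by
      rw [norm_div, div_lt_one hln]
      exact hcase
    have hrel : (a j : ℚ_[q]) * b i * (1 - (α i : ℚ_[q]) * (m / l)) * (V j / V i) ^ s =
        (a i : ℚ_[q]) * b j * (1 - (α j : ℚ_[q]) * (m / l)) := by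
      have h1 : (1 - (α i : ℚ_[q]) * (m / l)) = (l - (α i : ℚ_[q]) * m) / l := by
        field_simp
      have h2 : (1 - (α j : ℚ_[q]) * (m / l)) = (l - (α j : ℚ_[q]) * m) / l := by
        field_simp
      rw [h1, h2, div_pow]
      have h3 : (V i) ^ s ≠ 0 := pow_ne_zero s hVi0
      rw [mul_div_assoc', mul_div_assoc', mul_div_assoc', div_mul_eq_mul_div, div_div,
        div_eq_div_iff (mul_ne_zero hl0 h3) hl0]
      linear_combination (a j : ℚ_[q]) * (V j) ^ s * l * hV i - (a i : ℚ_[q]) * (V i) ^ s * l * hV j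
    obtain ⟨μ, hμ0⟩ : ∃ w : ℤ_[q], (w : ℚ_[q]) = m / l := ⟨⟨_, hμ.le⟩, rfl⟩
    obtain ⟨ρ, hρ0⟩ : ∃ w : ℤ_[q], (w : ℚ_[q]) = V j / V i := ⟨⟨_, hρ.le⟩, rfl⟩
    have hrel' : (a j : ℤ_[q]) * b i * (1 - (α i : ℤ_[q]) * μ) * ρ ^ s =
        (a i : ℤ_[q]) * b j * (1 - (α j : ℤ_[q]) * μ) := by
      apply PadicInt.ext
      push_cast
      rw [hμ0, hρ0]
      exact hrel
    have hμz : PadicInt.toZMod μ = 0 := toZMod_small μ (by rw [PadicInt.norm_def, hμ0]; exact hμ)
    have hρz : PadicInt.toZMod ρ ≠ 0 := toZMod_unit ρ (by rw [PadicInt.norm_def, hρ0]; exact hρ)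
    have h1 := congrArg (PadicInt.toZMod (p := q)) hrel'
    simp only [map_mul, map_sub, map_one, map_natCast, map_intCast, map_pow, hμz, mul_zero,
      sub_zero, mul_one] at h1
    have h2 := congrArg (fun w => w ^ n) h1
    simp only [mul_pow ((a j : ZMod q) * b i)] at h2
    rw [pn _ hρz, mul_one] at h2
    have h3 : (((a j : ℤ) * b i : ℤ) : ZMod q) ^ n = (((a i : ℤ) * b j : ℤ) : ZMod q) ^ n := by
      push_cast
      exact h2
    rcases numq (ab2 _ _ (az j).1 (az j).2 (bz i).1 (bz i).2).1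
      (ab2 _ _ (az j).1 (az j).2 (bz i).1 (bz i).2).2
      (ab2 _ _ (az i).1 (az i).2 (bz j).1 (bz j).2).1
      (ab2 _ _ (az i).1 (az i).2 (bz j).1 (bz j).2).2 h3 with h4 | h4
    · have h5 : a j * b i = a i * b j := by exact_mod_cast h4
      rw [mul_comm (b i), mul_comm (b j)]
      exact h5
    · exfalso
      have h5 : 0 < (a j : ℤ) * b i := mul_pos (by linarith [(az j).1]) (by linarith [(bz i).1])
      have h6 : 0 < (a i : ℤ) * b j := mul_pos (by linarith [(az i).1]) (by linarith [(bz j).1])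
      linarith
  · have hm0 : m ≠ 0 := by
      rintro rfl
      rw [norm_zero] at hcase
      have : l = 0 := norm_le_zero_iff.mp hcase
      rcases hlm with h | h
      · exact h this
      · exact h rfl
    have hmn : 0 < ‖m‖ := norm_pos_iff.mpr hm0
    have hu0 : u0 ≠ 0 := by
      intro h
      rw [h, zero_pow hs0] at hm
      exact hm0 hm
    have hD : ∀ i, (b i : ℚ_[q]) * (l / m - (α i : ℚ_[q])) = (a i : ℚ_[q]) * (V i / u0) ^ s := by
      intro i
      rw [div_pow, ← hm, mul_div_assoc', ← hV i]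
      field_simp
    have hLm : ∀ i, ‖l / m - (α i : ℚ_[q])‖ = ‖l - (α i : ℚ_[q]) * m‖ / ‖m‖ := by
      intro i
      rw [← norm_div]
      congr 1
      field_simp
    have hw1 : ‖l / m‖ ≤ 1 := by
      rw [norm_div]
      exact div_le_one_of_le₀ hcase (norm_nonneg _)
    have hD1 : ∀ i, ‖l / m - (α i : ℚ_[q])‖ ≤ 1 := fun i =>
      (CS.norm_sub_max _ _).trans (max_le hw1 (int_norm_le _))
    have hUn : ∀ i, ‖V i / u0‖ ^ s = ‖l / m - (α i : ℚ_[q])‖ := by
      intro i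
      have h1 := congrArg norm (hD i)
      rw [norm_mul, norm_mul, ua, ub, one_mul, one_mul, norm_pow] at h1
      exact h1.symm
    have hU1 : ∀ i, ‖V i / u0‖ ≤ 1 := by
      intro i
      have h1 := hD1 i
      rw [← hUn] at h1
      exact (pow_le_one_iff_of_nonneg (norm_nonneg _) hs0).mp h1
    obtain ⟨w, hw⟩ : ∃ w : ℤ_[q], (w : ℚ_[q]) = l / m := ⟨⟨_, hw1⟩, rfl⟩
    have hex : ∀ i, ∃ w : ℤ_[q], (w : ℚ_[q]) = V i / u0 := fun i => ⟨⟨_, hU1 i⟩, rfl⟩
    choose U hU using hex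
    have hrel : ∀ i, (b i : ℤ_[q]) * (w - (α i : ℤ_[q])) = (a i : ℤ_[q]) * (U i) ^ s := by
      intro i
      apply PadicInt.ext
      push_cast
      rw [hw, hU]
      exact hD i
    have hz : ∀ i, (b i : ZMod q) * (PadicInt.toZMod w - (α i : ZMod q)) =
        (a i : ZMod q) * (PadicInt.toZMod (U i)) ^ s := by
      intro i
      have h1 := congrArg (PadicInt.toZMod (p := q)) (hrel i)
      simpa only [map_mul, map_sub, map_natCast, map_intCast, map_pow] using h1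
    by_cases hc : ∃ i, ‖l / m - (α i : ℚ_[q])‖ < 1
    · right
      obtain ⟨i, hi⟩ := hc
      refine ⟨i, ?_, fun j hj => ?_⟩
      · rw [hLm, div_lt_one hmn] at hi
        exact hi
      · have h1 : PadicInt.toZMod w - (α i : ZMod q) = 0 := by
          have h2 := toZMod_small (w - (α i : ℤ_[q])) (by
            rw [PadicInt.norm_def]
            push_cast
            rw [hw]
            exact hi)
          rw [map_sub, map_intCast] at h2
          exact h2
        have h2 : (((b j : ℤ) * (α i - α j) : ℤ) : ZMod q) =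
            (a j : ZMod q) * (PadicInt.toZMod (U j)) ^ s := by
          rw [← hz j]
          push_cast
          linear_combination -(b j : ZMod q) * h1
        have h3 : α i - α j ≠ 0 := fun h => hj (hα (by omega))
        have hbj : (b j : ℤ) ≠ 0 := by have := (bz j).1; omega
        have h4 : |(b j : ℤ) * (α i - α j)| ≤ 2 * (M : ℤ) ^ 2 := by
          rw [abs_mul, abs_of_nonneg (by linarith [(bz j).1] : (0 : ℤ) ≤ b j)]
          have : (b j : ℤ) * |α i - α j| ≤ H * H :=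
            mul_le_mul (bz j).2 (hαH i j) (abs_nonneg _) (by linarith)
          linarith
        have h5 : (((b j : ℤ) * (α i - α j) : ℤ) : ZMod q) ≠ 0 := by
          refine int_ne (H := 2 * M ^ 2) (by omega) (mul_ne_zero hbj h3) ?_
          push_cast
          exact h4
        have h6 : PadicInt.toZMod (U j) ≠ 0 := by
          intro h0
          rw [h2, h0, zero_pow hs0, mul_zero] at h5
          exact h5 rfl
        have h7 := congrArg (fun w => w ^ n) h2
        simp only [mul_pow (a j : ZMod q)] at h7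
        rw [pn _ h6, mul_one] at h7
        have h8 : ((((b j : ℤ) * (α i - α j) : ℤ)) : ZMod q) ^ n = ((a j : ℤ) : ZMod q) ^ n := by
          rw [h7]
          push_cast
          rfl
        have haj : (a j : ℤ) ≠ 0 := by have := (az j).1; omega
        have h9 : |(a j : ℤ)| ≤ 2 * (M : ℤ) ^ 2 := by
          rw [abs_of_nonneg (by linarith [(az j).1])]
          have := (az j).2
          linarith
        have h10 := numq (mul_ne_zero hbj h3) h4 haj h9 h8
        have h11 := Int.natAbs_eq_natAbs_iff.mpr h10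
        rw [Int.natAbs_mul, Int.natAbs_natCast, Int.natAbs_natCast] at h11
        exact h11
    · exfalso
      push Not at hc
      have hUu : ∀ i, PadicInt.toZMod (U i) ≠ 0 := by
        intro i
        apply toZMod_unit
        rw [PadicInt.norm_def, hU]
        have h1 : ‖V i / u0‖ ^ s = 1 := by
          rw [hUn]
          exact le_antisymm (hD1 i) (hc i)
        exact (pow_eq_one_iff_of_nonneg (norm_nonneg _) hs0).mp h1
      obtain ⟨e, he1, he2⟩ := mod_q hq hs hs2 hsq hMq hbd hH hk α hα hαH a b ha hb haH hbH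
        (PadicInt.toZMod w) (fun i => PadicInt.toZMod (U i)) hUu hz
      exact no_signs hk α hα a b ha hb hab e he1 he2

/-- numbers below `2 ^ s` that differ by an `s`-th power are equal -/
lemma pow_eq_small {s a b X Y : ℕ} (hX : X ≠ 0) (hY : Y ≠ 0) (ha : 0 < a) (hb : 0 < b)
    (ha2 : a < 2 ^ s) (hb2 : b < 2 ^ s) (h : b * X ^ s = a * Y ^ s) : a = b := by
  obtain ⟨g, X', Y', hg, hco, rfl, rfl⟩ := Nat.exists_coprime' (m := X) (n := Y)
    (Nat.gcd_pos_of_pos_left _ (Nat.pos_of_ne_zero hX))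
  have hgs : 0 < g ^ s := Nat.pow_pos hg
  have h1 : b * X' ^ s = a * Y' ^ s := by
    apply Nat.eq_of_mul_eq_mul_right hgs
    rw [mul_pow, mul_pow] at h
    rw [mul_assoc, mul_assoc]
    exact h
  have hX0 : X' ≠ 0 := fun h => hX (by rw [h, zero_mul])
  have hY0 : Y' ≠ 0 := fun h => hY (by rw [h, zero_mul])
  have hXa : X' ^ s ∣ a :=
    (Nat.Coprime.pow s s hco).dvd_of_dvd_mul_right (Dvd.intro_left b h1)
  have hYb : Y' ^ s ∣ b :=
    (Nat.Coprime.pow s s hco).symm.dvd_of_dvd_mul_right (Dvd.intro_left a h1.symm)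
  have hX1 : X' = 1 := by
    by_contra hne
    have h2 : 2 ^ s ≤ X' ^ s := Nat.pow_le_pow_left (by omega) s
    have h3 := Nat.le_of_dvd ha hXa
    omega
  have hY1 : Y' = 1 := by
    by_contra hne
    have h2 : 2 ^ s ≤ Y' ^ s := Nat.pow_le_pow_left (by omega) s
    have h3 := Nat.le_of_dvd hb hYb
    omega
  rw [hX1, hY1, one_pow, mul_one, mul_one] at h1
  exact h1.symm

end Pool.Agent.H326.SE
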