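import Pool.Agent.H326.SE.C
import Pool.Agent.H326.CS.I

/-!
All points of a twist with local points everywhere reduce to one cusp.
-/

set_option autoImplicit false

namespace Pool.Agent.H326.SE

open Finset Pool.Agent.H573.AHB Pool.Agent.H326.KQ Pool.Agent.H326.DL

variable {s q M H k : ℕ}

/-- the twists that contain points reducing to a given cusp -/
def Cl {k : ℕ} (α : Fin k → ℤ) (a b : Fin k → ℕ) : Option (Fin k) → Prop
  | none => ∀ i j, b i * a j = b j * a i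
  | some i => ∀ j, j ≠ i → b j * (α i - α j).natAbs = a j

/-- the point `(l : m)` is near a cusp -/
def Near (q : ℕ) [Fact q.Prime] {k : ℕ} (α : Fin k → ℤ) (l m : ℚ_[q]) : Option (Fin k) → Prop
  | none => ‖m‖ < ‖l‖
  | some i => ‖l - (α i : ℚ_[q]) * m‖ < ‖m‖

lemma same_dist {x y z : ℤ} (hxy : x ≠ y) (h : (x - z).natAbs = (y - z).natAbs) :
    2 * z = x + y := by
  rcases Int.natAbs_eq_natAbs_iff.mp h with h1 | h1
  · exact absurd (by omega) hxy
  · omega

lemma three_others (hk : 4 ≤ k) (i : Fin k) : ∃ j1 j2 j3 : Fin k, j1 ≠ i ∧ j2 ≠ i ∧ j3 ≠ i ∧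
    j1 ≠ j2 ∧ j1 ≠ j3 ∧ j2 ≠ j3 := by
  classical
  have hcard : 2 < ((univ : Finset (Fin k)) \ {i}).card := by
    have h1 := Finset.le_card_sdiff ({i} : Finset (Fin k)) univ
    rw [Finset.card_univ, Fintype.card_fin, Finset.card_singleton] at h1
    omega
  obtain ⟨j1, j2, j3, h1, h2, h3, h12, h13, h23⟩ := Finset.two_lt_card_iff.mp hcard
  simp only [mem_sdiff, mem_univ, true_and, mem_singleton] at h1 h2 h3
  exact ⟨j1, j2, j3, h1, h2, h3, h12, h13, h23⟩

lemma Cl_inf (hk : 4 ≤ k) (α : Fin k → ℤ) (hα : Function.Injective α) (a b : Fin k → ℕ)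
    (hb : ∀ i, 1 ≤ b i) {i : Fin k} (h : Cl α a b none) (h' : Cl α a b (some i)) : False := by
  obtain ⟨j1, j2, j3, h1, h2, h3, h12, h13, h23⟩ := three_others hk i
  have key : ∀ j l, j ≠ i → l ≠ i → (α i - α j).natAbs = (α i - α l).natAbs := by
    intro j l hj hl
    have e1 : b j * (α i - α j).natAbs = a j := h' j hj
    have e2 : b l * (α i - α l).natAbs = a l := h' l hl
    have e3 : b j * a l = b l * a j := h j l
    rw [← e1, ← e2] at e3
    have e4 : (b j * b l) * (α i - α l).natAbs = (b j * b l) * (α i - α j).natAbs := by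
      linarith
    exact (Nat.eq_of_mul_eq_mul_left (Nat.mul_pos (hb j) (hb l)) e4).symm
  have n12 : α j1 ≠ α j2 := fun h => h12 (hα h)
  have n13 : α j1 ≠ α j3 := fun h => h13 (hα h)
  have n23 : α j2 ≠ α j3 := fun h => h23 (hα h)
  have k12 := key j1 j2 h1 h2
  have k13 := key j1 j3 h1 h3
  omega

lemma Cl_fin (hk : 4 ≤ k) (α : Fin k → ℤ) (hα : Function.Injective α) (a b : Fin k → ℕ)
    (hb : ∀ i, 1 ≤ b i) {i i' : Fin k} (h : Cl α a b (some i)) (h' : Cl α a b (some i')) :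
    i = i' := by
  classical
  by_contra hne
  have hcard : 1 < ((univ : Finset (Fin k)) \ {i, i'}).card := by
    have h1 := Finset.le_card_sdiff ({i, i'} : Finset (Fin k)) univ
    have h2 : ({i, i'} : Finset (Fin k)).card ≤ 2 := Finset.card_le_two
    rw [Finset.card_univ, Fintype.card_fin] at h1
    omega
  obtain ⟨j, hj, l, hl, hjl⟩ := Finset.one_lt_card.mp hcard
  simp only [mem_sdiff, mem_univ, true_and, mem_insert, mem_singleton, not_or] at hj hl
  have hii : α i ≠ α i' := fun h => hne (hα h)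
  have key : ∀ j, j ≠ i → j ≠ i' → 2 * α j = α i + α i' := by
    intro j h1 h2
    apply same_dist hii
    have e1 : b j * (α i - α j).natAbs = a j := h j h1
    have e2 : b j * (α i' - α j).natAbs = a j := h' j h2
    exact Nat.eq_of_mul_eq_mul_left (hb j) (e1.trans e2.symm)
  have h1 := key j hj.1 hj.2
  have h2 := key l hl.1 hl.2
  exact hjl (hα (by omega))

lemma Cl_unique (hk : 4 ≤ k) (α : Fin k → ℤ) (hα : Function.Injective α) (a b : Fin k → ℕ)
    (hb : ∀ i, 1 ≤ b i) : ∀ {R R' : Option (Fin k)}, Cl α a b R → Cl α a b R' → R = R'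
  | none, none, _, _ => rfl
  | none, some _, h, h' => (Cl_inf hk α hα a b hb h h').elim
  | some _, none, h, h' => (Cl_inf hk α hα a b hb h' h).elim
  | some _, some _, h, h' => by rw [Cl_fin hk α hα a b hb h h']

/-- **points of a twist with points everywhere locally** -/
theorem global (hs : s.Prime) (hs2 : 2 < s) (hH : H ^ 16 ≤ s) (hM : M = H ^ 2) (hk : 3 ≤ k)
    (hkH : k ≤ H) (α : Fin k → ℤ) (hα : Function.Injective α) (hdisc : disc α ≤ H)
    (a : Fin k → ℚ) (ha : ∀ i, a i ≠ 0) (c : ℚ) (hprod : ∏ i, a i = c ^ s)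
    (hloc : ∀ (p : ℕ) (_ : Fact p.Prime), ∃ l m : ℚ_[p], Loc p s α a l m) :
    ∃ a' b' : Fin k → ℕ, ((∀ i, 1 ≤ b' i) ∧ ∏ i, a' i = ∏ i, b' i) ∧ ∀ q : ℕ, q.Prime → s ∣ q - 1 →
      ¬ BD M q ((q - 1) / s) → ∀ _ : Fact q.Prime, ∀ l m : ℚ_[q], Loc q s α a l m →
        ∃ R, Near q α l m R ∧ Cl α a' b' R := by
  classical
  have hH3 : 3 ≤ H := hk.trans hkH
  have hodd : Odd s := hs.odd_of_ne_two (by omega)
  have hHs : H * H < s := by
    have h1 : H ^ 16 = H ^ 14 * (H * H) := by ring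
    have h2 : 2 ≤ H ^ 14 := by
      calc 2 ≤ H := by omega
        _ ≤ H ^ 14 := Nat.le_self_pow (by norm_num) H
    have h3 : 2 * (H * H) ≤ H ^ 14 * (H * H) := Nat.mul_le_mul_right _ h2
    have h4 : 0 < H * H := by positivity
    omega
  have hHs1 : H < s := by nlinarith
  have hks : k < s := lt_of_le_of_lt hkH hHs1
  have hsk : Nat.Coprime s k :=
    (Nat.Prime.coprime_iff_not_dvd hs).mpr (fun hd => by
      have := Nat.le_of_dvd (by omega) hd
      omega)
  have hH2s : H < 2 ^ s := hHs1.trans Nat.lt_two_pow_self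
  have hdisc2 : disc α < 2 ^ s := lt_of_le_of_lt hdisc hH2s
  have hHH : H ^ k < 2 ^ s := by
    calc H ^ k ≤ H ^ H := Nat.pow_le_pow_right (by omega) hkH
      _ < (2 ^ H) ^ H := Nat.pow_lt_pow_left Nat.lt_two_pow_self (by omega)
      _ = 2 ^ (H * H) := (pow_mul 2 H H).symm
      _ ≤ 2 ^ s := Nat.pow_le_pow_right (by norm_num) hHs.le
  have hE0 := disc_ne α hα
  -- natural representatives
  have hrep := fun i => CS.nat_rep s hodd (a i) (ha i)
  choose N hN t ht hNt using hrep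
  have hprodN : (((∏ i, N i : ℕ)) : ℚ) * (∏ i, t i) ^ s = c ^ s := by
    rw [← hprod]
    push_cast
    rw [← prod_pow, ← prod_mul_distrib]
    exact prod_congr rfl (fun i _ => (hNt i).symm)
  have ht0 : ∏ i, t i ≠ 0 := prod_ne_zero_iff.mpr (fun i _ => ht i)
  obtain ⟨c', hc'⟩ : ∃ c', c' = c / ∏ i, t i := ⟨_, rfl⟩
  have hc's : (((∏ i, N i : ℕ)) : ℚ) = c' ^ s := by
    rw [hc', div_pow, ← hprodN, mul_div_assoc, div_self (pow_ne_zero s ht0), mul_one]
  have hNpos : 0 < ∏ i, N i := Finset.prod_pos (fun i _ => Nat.pos_of_ne_zero (hN i))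
  have hc'0 : 0 < c' := by
    have h1 : (0 : ℚ) < c' ^ s := by
      rw [← hc's]
      exact_mod_cast hNpos
    exact hodd.pow_pos_iff.mp h1
  have hnum : (c'.num.natAbs : ℚ) = c' * c'.den := by
    rw [Rat.mul_den_eq_num, Nat.cast_natAbs, abs_of_pos (Rat.num_pos.mpr hc'0)]
  have hprod2 : (∏ i, N i) * c'.den ^ s = c'.num.natAbs ^ s := by
    have h5 : (((∏ i, N i) * c'.den ^ s : ℕ) : ℚ) = ((c'.num.natAbs ^ s : ℕ) : ℚ) := by
      rw [Nat.cast_mul, Nat.cast_pow, Nat.cast_pow, hnum, hc's, mul_pow]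
    exact_mod_cast h5
  have hc1 : c'.num.natAbs ≠ 0 := Int.natAbs_ne_zero.mpr (Rat.num_ne_zero.mpr hc'0.ne')
  have conv : ∀ (p : ℕ) (_ : Fact p.Prime) (l m : ℚ_[p]), Loc p s α a l m →
      Loc p s α (fun i => (N i : ℚ)) l m := by
    rintro p hp l m ⟨hlm, u0, u, hm, hu⟩
    refine ⟨hlm, u0, fun i => (t i : ℚ_[p]) * u i, hm, fun i => ?_⟩
    rw [hu i]
    conv_lhs => rw [hNt i]
    rw [mul_pow, Rat.cast_mul, Rat.cast_pow]
    ring
  have hsm : ∀ i, ∃ w a1 b1 : ℕ, w ≠ 0 ∧ 1 ≤ a1 ∧ 1 ≤ b1 ∧ a1 ∣ disc α ∧ b1 ∣ disc α ∧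
      b1 * N i = a1 * w ^ s := by
    intro i
    apply CS.small_class s (disc α) (N i) (hN i) hE0
    intro p hp
    have hpF : Fact p.Prime := ⟨hp⟩
    obtain ⟨l, m, hl⟩ := hloc p hpF
    exact val_all hsk hs.ne_zero α hα N hN _ _ hc1 c'.den_nz hprod2 hdisc2 l m
      (conv p hpF l m hl) i
  choose W a' b' hW ha' hb' hda hdb hWab using hsm
  have haH : ∀ i, a' i ≤ H := fun i =>
    (Nat.le_of_dvd (Nat.pos_of_ne_zero hE0) (hda i)).trans hdisc
  have hbH : ∀ i, b' i ≤ H := fun i =>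
    (Nat.le_of_dvd (Nat.pos_of_ne_zero hE0) (hdb i)).trans hdisc
  have hab : ∏ i, a' i = ∏ i, b' i := by
    have bd : ∀ f : Fin k → ℕ, (∀ i, f i ≤ H) → ∏ i, f i < 2 ^ s := by
      intro f hf
      refine lt_of_le_of_lt ?_ hHH
      calc ∏ i, f i ≤ ∏ _i : Fin k, H := Finset.prod_le_prod' (fun i _ => hf i)
        _ = H ^ k := by rw [prod_const, card_univ, Fintype.card_fin]
    refine pow_eq_small (X := c'.num.natAbs) (Y := (∏ i, W i) * c'.den) hc1
      (mul_ne_zero (prod_ne_zero_iff.mpr (fun i _ => hW i)) c'.den_nz)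
      (Finset.prod_pos (fun i _ => ha' i)) (Finset.prod_pos (fun i _ => hb' i))
      (bd a' haH) (bd b' hbH) ?_
    have h1 : (∏ i, b' i) * (∏ i, N i) = (∏ i, a' i) * (∏ i, W i) ^ s := by
      rw [← prod_pow, ← prod_mul_distrib, ← prod_mul_distrib]
      exact prod_congr rfl (fun i _ => hWab i)
    rw [← hprod2, ← mul_assoc, h1, mul_pow, mul_assoc]
  refine ⟨a', b', ⟨hb', hab⟩, ?_⟩
  intro q hq hsq hbd hF l m hl
  obtain ⟨hlm, u0, u, hm, hu⟩ := conv q hF l m hl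
  have hsq' : s ≤ q - 1 := Nat.le_of_dvd (by have := hq.two_le; omega) hsq
  have hMq : 6 * M ^ 2 < q := by
    have h1 : M ^ 2 = H ^ 4 := by rw [hM]; ring
    have h2 : H ^ 16 = H ^ 12 * H ^ 4 := by ring
    have h3 : 6 ≤ H ^ 12 := by
      calc 6 ≤ 3 ^ 12 := by norm_num
        _ ≤ H ^ 12 := Nat.pow_le_pow_left hH3 12
    have h4 : 6 * H ^ 4 ≤ H ^ 12 * H ^ 4 := Nat.mul_le_mul_right _ h3
    have := hq.two_le
    omega
  have hH3M : H ^ 3 ≤ M ^ 2 := by
    rw [hM, ← pow_mul]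
    exact Nat.pow_le_pow_right (by omega) (by norm_num)
  have hαH : ∀ i j, |α i - α j| ≤ H := by
    intro i j
    by_cases hij : j = i
    · rw [hij, sub_self, abs_zero]
      exact Int.natCast_nonneg H
    · have h1 := (Nat.le_of_dvd (Nat.pos_of_ne_zero hE0) (diff_dvd α hij)).trans hdisc
      rw [Int.abs_eq_natAbs]
      exact_mod_cast h1
  rcases at_q hs hs2 hsq hMq hbd hH3M hk α hα hαH a' b' ha' hb' haH hbH hab l m u0
    (fun i => (W i : ℚ_[q]) * u i) hlm hm (fun i => by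
      rw [hu i]
      have h1 : (b' i : ℚ_[q]) * (N i : ℚ_[q]) = (a' i : ℚ_[q]) * (W i : ℚ_[q]) ^ s := by
        exact_mod_cast hWab i
      rw [Rat.cast_natCast, mul_pow, ← mul_assoc, ← mul_assoc, h1]) with h | ⟨i, h1, h2⟩
  · exact ⟨none, h.1, h.2⟩
  · exact ⟨some i, h1, h2⟩

end Pool.Agent.H326.SE
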