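import Pool.Agent.H326.SE.D

/-!
The case of three roots.
-/

set_option autoImplicit false

namespace Pool.Agent.H326.SE

open Finset

lemma fin3 (i i' : Fin 3) (h : i ≠ i') : ∃ j : Fin 3, j ≠ i ∧ j ≠ i' ∧
    univ.erase i = {i', j} ∧ univ.erase i' = {i, j} ∧ univ.erase j = {i, i'} ∧
    ∀ f : Fin 3 → ℕ, ∏ x, f x = f i * (f i' * f j) := by
  have key : ∀ i i' : Fin 3, i ≠ i' → ∃ j : Fin 3, j ≠ i ∧ j ≠ i' ∧
      (univ.erase i = {i', j} ∧ univ.erase i' = {i, j} ∧ univ.erase j = {i, i'}) ∧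
      (univ : Finset (Fin 3)) = {i, i', j} := by decide
  obtain ⟨j, h1, h2, ⟨h3, h4, h5⟩, h6⟩ := key i i' h
  refine ⟨j, h1, h2, h3, h4, h5, fun f => ?_⟩
  rw [h6, prod_insert, prod_insert, prod_singleton]
  · rw [mem_singleton]
    exact h2.symm
  · rw [mem_insert, mem_singleton, not_or]
    exact ⟨h, h1.symm⟩

lemma Cl3_fin (α : Fin 3 → ℤ) (hα : Function.Injective α) (a b : Fin 3 → ℕ)
    (hb : ∀ i, 1 ≤ b i) (hab : ∏ i, a i = ∏ i, b i) {i i' : Fin 3} (hne : i ≠ i')
    (h : Cl α a b (some i)) (h' : Cl α a b (some i')) : False := by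
  obtain ⟨j, j1, j2, -, -, -, hp⟩ := fin3 i i' hne
  have hii : α i ≠ α i' := fun h => hne (hα h)
  have e1 : b j * (α i - α j).natAbs = a j := h j j1
  have e2 : b j * (α i' - α j).natAbs = a j := h' j j2
  have e3 : b i' * (α i - α i').natAbs = a i' := h i' hne.symm
  have e4 : b i * (α i' - α i).natAbs = a i := h' i hne
  have e5 := same_dist hii (Nat.eq_of_mul_eq_mul_left (hb j) (e1.trans e2.symm))
  obtain ⟨D, hD⟩ : ∃ D, D = (α i - α j).natAbs := ⟨_, rfl⟩
  have d3 : (α i - α i').natAbs = 2 * D := by omega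
  have d4 : (α i' - α i).natAbs = 2 * D := by omega
  rw [← hD] at e1
  rw [d3] at e3
  rw [d4] at e4
  rw [hp, hp, ← e1, ← e3, ← e4] at hab
  have hB : 0 < b i * (b i' * b j) := Nat.mul_pos (hb i) (Nat.mul_pos (hb i') (hb j))
  have h6 : b i * (b i' * b j) * (4 * (D * D * D)) = b i * (b i' * b j) * 1 := by
    rw [mul_one]
    calc b i * (b i' * b j) * (4 * (D * D * D)) =
        b i * (2 * D) * (b i' * (2 * D) * (b j * D)) := by ring
      _ = _ := hab
  have h7 := Nat.eq_of_mul_eq_mul_left hB h6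
  omega

lemma Cl3_inf (α : Fin 3 → ℤ) (hα : Function.Injective α) (a b : Fin 3 → ℕ)
    (hb : ∀ i, 1 ≤ b i) (hab : ∏ i, a i = ∏ i, b i) {i : Fin 3}
    (h : Cl α a b none) (h' : Cl α a b (some i)) : disc α = 4 := by
  obtain ⟨i', hne⟩ : ∃ i' : Fin 3, i ≠ i' := by
    have key : ∀ i : Fin 3, ∃ i' : Fin 3, i ≠ i' := by decide
    exact key i
  obtain ⟨j, j1, j2, r1, r2, r3, hp⟩ := fin3 i i' hne
  have e1 : b j * (α i - α j).natAbs = a j := h' j j1
  have e2 : b i' * (α i - α i').natAbs = a i' := h' i' hne.symm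
  have e3 : b j * a i' = b i' * a j := h j i'
  have e4 : b i * a j = b j * a i := h i j
  obtain ⟨D, hD⟩ : ∃ D, D = (α i - α j).natAbs := ⟨_, rfl⟩
  rw [← hD] at e1
  have e5 : (α i - α i').natAbs = D := by
    rw [← e1, ← e2] at e3
    have h4 : (b i' * b j) * (α i - α i').natAbs = (b i' * b j) * D := by linarith
    exact Nat.eq_of_mul_eq_mul_left (Nat.mul_pos (hb i') (hb j)) h4
  rw [e5] at e2
  have e6 : a i = b i * D := by
    rw [← e1] at e4
    have h4 : b j * (b i * D) = b j * a i := by linarith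
    exact (Nat.eq_of_mul_eq_mul_left (hb j) h4).symm
  rw [hp, hp, e6, ← e1, ← e2] at hab
  have hB : 0 < b i * (b i' * b j) := Nat.mul_pos (hb i) (Nat.mul_pos (hb i') (hb j))
  have h6 : b i * (b i' * b j) * (D * D * D) = b i * (b i' * b j) * 1 := by
    rw [mul_one]
    calc b i * (b i' * b j) * (D * D * D) = b i * D * (b i' * D * (b j * D)) := by ring
      _ = _ := hab
  have h7 := Nat.eq_of_mul_eq_mul_left hB h6
  have hD1 : D = 1 := by
    have h8 : D * (D * D) = 1 := by linarith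
    exact Nat.eq_one_of_mul_eq_one_right h8
  have n1 : α i' ≠ α j := fun h => j2 (hα h.symm)
  have d1 : (α i - α j).natAbs = 1 := by omega
  have d2 : (α i - α i').natAbs = 1 := by omega
  have d3 : (α i' - α i).natAbs = 1 := by omega
  have d4 : (α j - α i).natAbs = 1 := by omega
  have d5 : (α i' - α j).natAbs = 2 := by omega
  have d6 : (α j - α i').natAbs = 2 := by omega
  unfold disc
  rw [hp, r1, r2, r3, prod_pair j2.symm, prod_pair j1.symm, prod_pair hne, d1, d2, d3, d4, d5, d6]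
  norm_num

/-- two cusps in the same class are equal, unless there are three consecutive roots only -/
lemma Cl_unique' {k : ℕ} (hk : 3 ≤ k) (α : Fin k → ℤ) (hα : Function.Injective α)
    (h4 : disc α ≠ 4) (a b : Fin k → ℕ) (hb : ∀ i, 1 ≤ b i) (hab : ∏ i, a i = ∏ i, b i)
    {R R' : Option (Fin k)} (h : Cl α a b R) (h' : Cl α a b R') : R = R' := by
  rcases Nat.lt_or_ge k 4 with hk4 | hk4
  · have hk3 : k = 3 := by omega
    subst hk3
    rcases R with _ | i
    · rcases R' with _ | i'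
      · rfl
      · exact absurd (Cl3_inf α hα a b hb hab h h') h4
    · rcases R' with _ | i'
      · exact absurd (Cl3_inf α hα a b hb hab h' h) h4
      · by_cases hne : i = i'
        · rw [hne]
        · exact (Cl3_fin α hα a b hb hab hne h h').elim
  · exact Cl_unique hk4 α hα a b hb h h'

end Pool.Agent.H326.SE
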