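import Pool.Agent.H326.SE.E

/-!
The discriminant bounds the number of roots.
-/

set_option autoImplicit false

namespace Pool.Agent.H326.SE

open Finset

lemma far_root {k : ℕ} (hk : 2 ≤ k) (α : Fin k → ℤ) (hα : Function.Injective α) :
    ∃ i j : Fin k, j ≠ i ∧ k - 1 ≤ (α i - α j).natAbs := by
  classical
  obtain ⟨i, -, hi⟩ := Finset.exists_min_image (univ : Finset (Fin k)) α ⟨⟨0, by omega⟩, mem_univ _⟩
  refine ⟨i, ?_⟩
  by_contra hcon
  push Not at hcon
  have hsub : (univ.erase i).image (fun j => (α i - α j).natAbs) ⊆ Icc 1 (k - 2) := by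
    intro x hx
    obtain ⟨j, hj, rfl⟩ := mem_image.mp hx
    have hji := (mem_erase.mp hj).1
    have h1 := hcon j hji
    have h2 : α i ≠ α j := fun h => hji (hα h).symm
    rw [mem_Icc]
    omega
  have hcard := card_le_card hsub
  rw [card_image_of_injOn, card_erase_of_mem (mem_univ i), card_univ, Fintype.card_fin,
    Nat.card_Icc] at hcard
  · omega
  · intro j hj l hl hjl
    have h1 := hi j (mem_univ j)
    have h2 := hi l (mem_univ l)
    simp only at hjl
    exact hα (by omega)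

lemma sq_le_disc {k : ℕ} (hk : 2 ≤ k) (α : Fin k → ℤ) (hα : Function.Injective α) :
    (k - 1) * (k - 1) ≤ disc α := by
  classical
  obtain ⟨i, j, hij, h⟩ := far_root hk α hα
  have h' : k - 1 ≤ (α j - α i).natAbs := by omega
  have d1 : (α i - α j).natAbs ∣ ∏ l ∈ univ.erase i, (α i - α l).natAbs :=
    Finset.dvd_prod_of_mem (fun l => (α i - α l).natAbs) (mem_erase.mpr ⟨hij, mem_univ j⟩)
  have d2 : (α j - α i).natAbs ∣ ∏ l ∈ univ.erase j, (α j - α l).natAbs :=
    Finset.dvd_prod_of_mem (fun l => (α j - α l).natAbs) (mem_erase.mpr ⟨hij.symm, mem_univ i⟩)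
  have d3 : (∏ l ∈ univ.erase i, (α i - α l).natAbs) *
      (∏ l ∈ univ.erase j, (α j - α l).natAbs) ∣ disc α := by
    have h1 := Finset.prod_dvd_prod_of_subset ({i, j} : Finset (Fin k)) univ
      (fun i => ∏ l ∈ univ.erase i, (α i - α l).natAbs) (subset_univ _)
    rw [prod_pair hij.symm] at h1
    exact h1
  have d4 := Nat.le_of_dvd (Nat.pos_of_ne_zero (disc_ne α hα)) ((mul_dvd_mul d1 d2).trans d3)
  exact (Nat.mul_le_mul h h').trans d4

lemma k_le_disc {k : ℕ} (hk : 3 ≤ k) (α : Fin k → ℤ) (hα : Function.Injective α) :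
    k ≤ disc α := by
  refine le_trans ?_ (sq_le_disc (by omega) α hα)
  obtain ⟨m, rfl⟩ : ∃ m, k = m + 3 := ⟨k - 3, by omega⟩
  have : m + 3 - 1 = m + 2 := by omega
  rw [this]
  nlinarith

end Pool.Agent.H326.SE
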